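import Pool.Graph.R_seed8.Y329.CG.Fin
import Pool.Graph.R_seed8.Y77.CG.FD
import Pool.Graph.R_seed8.Y930.CG.PSer
import Pool.Graph.R_seed8.Y434.CG.PS2
import Pool.Graph.R_seed8.Y629.CG.PM
import Pool.Graph.R_seed8.Y490.CG.SM
import Pool.Graph.R_seed8.Y986.CG.Gen

/-!
# MP_be1663_al: a two-generated nonamenable group of compactly supported `C^∞` diffeomorphisms of the
line without nonabelian free subgroups

The library answers Q1 with a group of `C^2` diffeomorphisms. Here: the group can be generated by two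
elements, all its elements can be taken `C^∞` (with `C^∞` inverses), and they are all the identity
outside the interval `(0, 3)`, so the group acts on a compact interval and on the circle.
-/

set_option autoImplicit false

open Set Filter Topology MeasureTheory
open scoped ContDiff

namespace Pool.Agent.Results.MP_be1663_al.SmoothTwoGenerated

open Pool.Agent.Y329.CG

/-- `G` is amenable: there is a finitely additive probability measure, defined on all subsets of `G`
and invariant under left translations. -/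
def Amenable (G : Type) [Group G] : Prop :=
  ∃ m : Set G → ℝ, (∀ A : Set G, 0 ≤ m A) ∧ m Set.univ = 1 ∧
    (∀ A B : Set G, Disjoint A B → m (A ∪ B) = m A + m B) ∧
    (∀ (g : G) (A : Set G), m ((fun x => g * x) ⁻¹' A) = m A)

theorem bump_smooth (i : Fin 2) : ContDiff ℝ ∞ (bump i) := by
  unfold bump
  exact (expNegInvGlue.contDiff.comp (contDiff_id.sub contDiff_const)).mul
    (expNegInvGlue.contDiff.comp (contDiff_const.sub contDiff_id))

theorem fam_smooth (ε : ℝ) (i : Fin 2) (a : Om) : ContDiff ℝ ∞ (fam ε i (sq a)) := by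
  have ha : ∀ n, |sq a n| ≤ 1 := fun n => abs_le.2 ⟨(a n).2.1, (a n).2.2⟩
  obtain ⟨pan, -, -⟩ := Pool.Agent.Y930.CG.done1 (sq a) ha
  have pC : ContDiff ℝ ∞ (PS (sq a)) := contDiff_iff_contDiffAt.2 fun x => (pan x).contDiffAt
  unfold fam
  exact contDiff_id.add (contDiff_const.mul ((bump_smooth i).mul (contDiff_const.add pC)))

/-- the inverse of a smooth increasing permutation with derivative near 1 is smooth -/
theorem symm_smooth (e : Equiv.Perm ℝ) (hm : StrictMono e) (he : ContDiff ℝ ∞ e)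
    (hd : ∀ x, |deriv e x - 1| ≤ 1 / 100) : ContDiff ℝ ∞ e.symm := by
  have hdiff : Differentiable ℝ e := he.differentiable (by norm_num)
  have hpos : ∀ x, 0 < deriv e x := fun x => by
    have := (abs_le.1 (hd x)).1
    linarith
  set o : ℝ ≃o ℝ := hm.orderIsoOfSurjective e e.surjective with ho
  have hoe : (o.toHomeomorph : ℝ → ℝ) = e := rfl
  have h1 := Homeomorph.contDiff_symm_deriv (n := ∞) (𝕜 := ℝ) o.toHomeomorph (f' := deriv e)
      (fun x => (hpos x).ne') (fun x => by rw [hoe]; exact (hdiff x).hasDerivAt)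
      (by rw [hoe]; exact he)
  have h2 : (o.toHomeomorph.symm : ℝ → ℝ) = e.symm := by
    funext x
    apply e.injective
    rw [Equiv.apply_symm_apply]
    exact o.apply_symm_apply x
  rwa [h2] at h1

/-- the smooth pair -/
theorem exists_pair : ∃ s : Fin 2 → Equiv.Perm ℝ, Pair s ∧ (∀ i, ContDiff ℝ ∞ (s i)) ∧
    ∀ i, ContDiff ℝ ∞ (s i).symm := by
  obtain ⟨ε, hε, h⟩ := doneSM Pool.Agent.Y930.CG.done1 Pool.Agent.Y629.CG.done
  obtain ⟨a, b, hab⟩ := Pool.Agent.Y986.CG.done Pool.Agent.Y77.CG.done Pool.Agent.Y930.CG.done1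
      Pool.Agent.Y434.CG.PS2.done Pool.Agent.Y930.CG.done3 ε hε
  obtain ⟨s, hs, h0, h1⟩ := h a b
  have e0 : (s 0 : ℝ → ℝ) = fam ε 0 (sq a) := funext h0
  have e1 : (s 1 : ℝ → ℝ) = fam ε 1 (sq b) := funext h1
  have hg : Good (s 0) (s 1) := by rw [e0, e1]; exact hab
  obtain ⟨hp, hm⟩ := Pool.Agent.Y908.CG.GT.done s hs hg
  have hsm : ∀ i, ContDiff ℝ ∞ (s i) := by
    intro i
    fin_cases i
    · show ContDiff ℝ ∞ (s 0)
      rw [e0]; exact fam_smooth ε 0 a
    · show ContDiff ℝ ∞ (s 1)
      rw [e1]; exact fam_smooth ε 1 b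
  exact ⟨s, ⟨hs, hp, hm⟩, hsm, fun i => symm_smooth (s i) (hs.mono i) (hsm i) (hs.der i)⟩

theorem rho_smooth {s : Fin 2 → Equiv.Perm ℝ} (h : ∀ i, ContDiff ℝ ∞ (s i))
    (h' : ∀ i, ContDiff ℝ ∞ (s i).symm) (W : F2) : ContDiff ℝ ∞ (rho s W) ∧ ContDiff ℝ ∞ (rho s W).symm := by
  induction W using FreeGroup.induction_on with
  | C1 =>
    rw [map_one]
    exact ⟨contDiff_id, contDiff_id⟩
  | of i =>
    rw [rho_of]
    exact ⟨h i, h' i⟩
  | inv_of i _ =>
    have e : rho s (FreeGroup.of i)⁻¹ = (s i).symm := by rw [map_inv, rho_of]; rfl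
    rw [e, Equiv.symm_symm]
    exact ⟨h' i, h i⟩
  | mul a b ha hb =>
    rw [map_mul]
    exact ⟨ha.1.comp hb.1, hb.2.comp ha.2⟩

theorem closure_eq (s : Fin 2 → Equiv.Perm ℝ) : Subgroup.closure {s 0, s 1} = (rho s).range := by
  have h1 : ({s 0, s 1} : Set (Equiv.Perm ℝ)) = Set.range s := by
    ext x
    simp only [mem_insert_iff, mem_singleton_iff, mem_range]
    constructor
    · rintro (h | h)
      · exact ⟨0, h.symm⟩
      · exact ⟨1, h.symm⟩
    · rintro ⟨i, rfl⟩
      fin_cases i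
      · exact Or.inl rfl
      · exact Or.inr rfl
  rw [h1, rho, FreeGroup.range_lift_eq_closure]

/-- There are two `C^∞` diffeomorphisms `a`, `b` of the line, equal to the identity outside `(0, 3)`, such
that the group generated by them consists of increasing `C^∞` diffeomorphisms that are the identity outside
`(0, 3)`, is not amenable and contains no free group of rank 2. -/
theorem result :
    ∃ a b : Equiv.Perm ℝ,
      (∀ g ∈ Subgroup.closure {a, b}, StrictMono ⇑g ∧ ContDiff ℝ ∞ ⇑g ∧ ContDiff ℝ ∞ ⇑(g.symm) ∧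
        ∀ x : ℝ, x ∉ Ioo (0 : ℝ) 3 → g x = x) ∧
      ¬ Amenable (Subgroup.closure {a, b}) ∧
      ¬ ∃ f : FreeGroup (Fin 2) →* Subgroup.closure {a, b}, Function.Injective f := by
  obtain ⟨s, hs, hsm, hsm'⟩ := exists_pair
  have h0 : Pair0 s := hs.toPair0
  have hB : S_B := doneB Pool.Agent.Y151.CG.done ok_proof doneRC
  have hF : S_F := Pool.Agent.Y429.CG.F.done ok_proof doneRC Pool.Agent.Y401.CG.AN.done
      Pool.Agent.Y151.CG.done Pool.Agent.Y168.CG.doneCG
  have hMD : S_MD := Pool.Agent.Y240.CG.done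
  have hNA : S_NA := Pool.Agent.Y286.CG.done Pool.Agent.Y658.CG.done Pool.Agent.Y50.CG.fa
  have hNF : S_NF := Pool.Agent.Y547.CG.done Pool.Agent.Y168.CG.doneFG Pool.Agent.Y407.CG.done
  refine ⟨s 0, s 1, ?_⟩
  rw [closure_eq]
  refine ⟨?_, ?_, ?_⟩
  · rintro g ⟨W, rfl⟩
    have h1 := rho_smooth hsm hsm' W
    exact ⟨(h0.rho_mono W).1, h1.1, h1.2, fun x hx => h0.rho_out W hx⟩
  · have hsec : ∀ g : (rho s).range, ∃ W : F2, rho s W = g := fun g => g.2
    choose τ hτ using hsec
    have key : ∀ W W' : F2, rho s W = rho s W' → ∀ x, coc s Dp W x = coc s Dp W' x := by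
      intro W W' h x
      have h1 : rho s (W⁻¹ * W') = 1 := by rw [map_mul, map_inv, h, inv_mul_cancel]
      have h2 := hF s hs _ h1 x
      rw [coc_mul, coc_inv, ← h, ← rho_mul_apply, inv_mul_cancel, map_one] at h2
      exact (inv_mul_eq_one.1 h2)
    obtain ⟨m1, m2, m3, m4⟩ := hMD s h0
    let gen : Fin 2 → (rho s).range := fun i => ⟨s i, FreeGroup.of i, rho_of s i⟩
    apply hNA (rho s).range (Subgroup.subtype _) (fun g x => coc s Dp (τ g) x) gen
    · intro g g' x
      have e : rho s (τ (g * g')) = rho s (τ g * τ g') := by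
        rw [hτ, map_mul, hτ, hτ]; rfl
      have := key _ _ e x
      rw [this, coc_mul, hτ]; rfl
    · intro g v
      exact m1 _ _
    · intro i x hx
      have e : rho s (τ (gen i)) = rho s (FreeGroup.of i) := by
        rw [hτ, rho_of]
      show coc s Dp (τ (gen i)) x = _
      rw [key _ _ e x]
      apply coc_of_mem
      fin_cases i
      · simp [Dp, lo, hi] at hx ⊢
        exact ⟨by linarith [hx.1], hx.2⟩
      · simp [Dp, lo, hi] at hx ⊢
        exact ⟨hx.1, by linarith [hx.2]⟩
    · intro i B hB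
      exact m2 i B hB
    · intro i B hB hB2
      exact m3 i B hB hB2
    · intro i
      exact m4 i
  · apply hNF
    · rintro g ⟨W, rfl⟩
      exact (h0.rho_mono W).1
    · rintro g ⟨W, rfl⟩ x hx
      exact h0.rho_out W hx
    · rintro g ⟨W, rfl⟩ h ⟨W', rfl⟩ x h1 h2
      have := hB s hs W W' x h1 h2
      simpa only [map_mul, map_inv] using this

end Pool.Agent.Results.MP_be1663_al.SmoothTwoGenerated
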